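import Pool.Agent.helper7.EP.SpecH

/-!
# Project ep (MP_ebc808_nt), module HS: the function `Hf` and the involution
-/

set_option autoImplicit false

open Finset PowerSeries UpperHalfPlane ModularForm
open scoped MatrixGroups Real

noncomputable section

namespace Pool.Agent.EP

lemma HS_im_mul {p : ℕ} (hp : 0 < p) {z : ℂ} (hz : 0 < z.im) : 0 < ((p : ℂ) * z).im := by
  simp only [Complex.mul_im, Complex.natCast_re, Complex.natCast_im, zero_mul, add_zero]
  positivity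

lemma HS_im_div {p : ℕ} (hp : 0 < p) {z : ℂ} (hz : 0 < z.im) (b : ℕ) :
    0 < ((z + 24 * (b : ℂ)) / p).im := by
  rw [Complex.div_natCast_im]
  have : (z + 24 * (b : ℂ)).im = z.im := by
    simp [Complex.add_im, Complex.mul_im]
  rw [this]
  positivity

lemma HS_ne {z : ℂ} (hz : 0 < z.im) : ModularForm.eta z ^ 8 ≠ 0 :=
  pow_ne_zero _ (ModularForm.eta_ne_zero hz)

lemma HS_inv (hETA : ETA_stmt) {w : ℂ} (hw : 0 < w.im) :
    ModularForm.eta (-1 / w) ^ 8 = w ^ 4 * ModularForm.eta w ^ 8 := by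
  have h := hETA 0 (-1) 1 0 (by norm_num) (by norm_num) (by norm_num) w hw
  simpa using h

theorem HS (hETA : ETA_stmt) : HS_stmt := by
  intro l m hl hl5 z hz
  have hl1 : 0 < l := hl.pos
  have hl0 : (l : ℂ) ≠ 0 := by exact_mod_cast hl1.ne'
  have hz0 : z ≠ 0 := by rintro rfl; simp at hz
  have hfact : Fact l.Prime := ⟨hl⟩
  have hK : z ^ (4 * l) = z ^ (4 * (l - 1)) * z ^ 4 := by
    rw [← pow_add]
    congr 1
    omega
  have hKm : z ^ (4 * (m * (l - 1))) = (z ^ (4 * (l - 1))) ^ m := by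
    rw [← pow_mul]
    congr 1
    ring
  have h0 : ModularForm.eta (-1 / z) ^ (8 * l) =
      z ^ (4 * (l - 1)) * z ^ 4 * ModularForm.eta z ^ (8 * l) := by
    rw [pow_mul, HS_inv hETA hz, mul_pow, ← pow_mul, ← pow_mul, hK]
  unfold Hf
  rw [Finset.range_eq_Ico, Finset.sum_eq_sum_Ico_succ_bot hl1, Finset.sum_eq_sum_Ico_succ_bot hl1]
  rw [hKm]
  simp only [h0]
  generalize z ^ (4 * (l - 1)) = K
  generalize ModularForm.eta z ^ (8 * l) = G
  have e1 : (K * z ^ 4 * G / ModularForm.eta (l * (-1 / z)) ^ 8) ^ m =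
      K ^ m * ((l : ℂ) ^ (4 * m) * (G / ModularForm.eta ((z + 24 * ((0 : ℕ) : ℂ)) / l) ^ 8) ^ m) := by
    have h1 : (l : ℂ) * (-1 / z) = -1 / ((z + 24 * ((0 : ℕ) : ℂ)) / l) := by
      push_cast; rw [mul_zero, add_zero]; field_simp
    rw [h1, HS_inv hETA (HS_im_div hl1 hz 0), pow_mul, ← mul_pow, ← mul_pow]
    congr 1
    have h2 := HS_ne (HS_im_div hl1 hz 0)
    have h3 : (z + 24 * ((0 : ℕ) : ℂ)) = z := by simp
    rw [h3] at h2 ⊢
    generalize ModularForm.eta (z / l) ^ 8 = E at h2 ⊢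
    field_simp
  have e2 : (l : ℂ) ^ (4 * m) *
      (K * z ^ 4 * G / ModularForm.eta ((-1 / z + 24 * ((0 : ℕ) : ℂ)) / l) ^ 8) ^ m =
      K ^ m * (G / ModularForm.eta (l * z) ^ 8) ^ m := by
    have h1 : (-1 / z + 24 * ((0 : ℕ) : ℂ)) / l = -1 / (l * z) := by
      push_cast; rw [mul_zero, add_zero]; field_simp
    rw [h1, HS_inv hETA (HS_im_mul hl1 hz), pow_mul, ← mul_pow, ← mul_pow]
    congr 1
    have h2 := HS_ne (HS_im_mul hl1 hz)
    generalize ModularForm.eta (l * z) ^ 8 = E at h2 ⊢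
    field_simp
  have e3 : ∑ b ∈ Finset.Ico (0 + 1) l,
      (K * z ^ 4 * G / ModularForm.eta ((-1 / z + 24 * (b : ℂ)) / l) ^ 8) ^ m =
      K ^ m * ∑ b ∈ Finset.Ico (0 + 1) l,
        (G / ModularForm.eta ((z + 24 * (b : ℂ)) / l) ^ 8) ^ m := by
    rw [Finset.mul_sum]
    have h576 : (576 : ZMod l) ≠ 0 := by
      intro h
      have h1 : ((576 : ℕ) : ZMod l) = 0 := by exact_mod_cast h
      rw [ZMod.natCast_eq_zero_iff] at h1
      have h2 : l ∣ 2 ^ 6 * 3 ^ 2 := by norm_num; exact h1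
      rcases (Nat.Prime.dvd_mul hl).1 h2 with h3 | h3
      · have := Nat.le_of_dvd (by norm_num) (hl.dvd_of_dvd_pow h3)
        omega
      · have := Nat.le_of_dvd (by norm_num) (hl.dvd_of_dvd_pow h3)
        omega
    have hne : ∀ b ∈ Finset.Ico (0 + 1) l, ((b : ℕ) : ZMod l) ≠ 0 := by
      intro b hb h
      rw [Finset.mem_Ico] at hb
      rw [ZMod.natCast_eq_zero_iff] at h
      exact absurd (Nat.le_of_dvd (by omega) h) (by omega)
    have hmem : ∀ b ∈ Finset.Ico (0 + 1) l,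
        (-(576 * (b : ZMod l))⁻¹).val ∈ Finset.Ico (0 + 1) l := by
      intro b hb
      rw [Finset.mem_Ico]
      refine ⟨?_, ZMod.val_lt _⟩
      rw [zero_add, Nat.one_le_iff_ne_zero, Ne, ZMod.val_eq_zero, neg_eq_zero]
      exact inv_ne_zero (mul_ne_zero h576 (hne b hb))
    have hinv : ∀ b ∈ Finset.Ico (0 + 1) l,
        (-(576 * (((-(576 * (b : ZMod l))⁻¹).val : ℕ) : ZMod l))⁻¹).val = b := by
      intro b hb
      have hb0 := hne b hb
      rw [ZMod.natCast_zmod_val]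
      have h1 : -(576 * (-(576 * (b : ZMod l))⁻¹))⁻¹ = (b : ZMod l) := by
        field_simp
      rw [h1, ZMod.val_natCast_of_lt]
      exact (Finset.mem_Ico.mp hb).2
    refine Finset.sum_nbij' (fun b => (-(576 * (b : ZMod l))⁻¹).val)
      (fun b => (-(576 * (b : ZMod l))⁻¹).val) hmem hmem hinv hinv ?_
    intro b hb
    set b' := (-(576 * (b : ZMod l))⁻¹).val with hb'
    have hdvd : (l : ℤ) ∣ 576 * (b : ℤ) * b' + 1 := by
      rw [← ZMod.intCast_zmod_eq_zero_iff_dvd]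
      push_cast
      rw [hb', ZMod.natCast_zmod_val, mul_neg, mul_inv_cancel₀ (mul_ne_zero h576 (hne b hb)),
        neg_add_cancel]
    obtain ⟨e, he⟩ := hdvd
    have h := hETA (24 * b) (-e) l (-(24 * b')) (by linear_combination -he)
      ⟨8 * b, by ring⟩ ⟨-(8 * b'), by ring⟩ ((z + 24 * b') / l) (HS_im_div hl1 hz b')
    have he' : 576 * (b : ℂ) * b' + 1 = l * e := by exact_mod_cast he
    have h5 : ((l : ℤ) : ℂ) * ((z + 24 * b') / l) + ((-(24 * b') : ℤ) : ℂ) = z := by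
      push_cast; field_simp; ring
    have h6 : ((24 * b : ℤ) : ℂ) * ((z + 24 * b') / l) + ((-e : ℤ) : ℂ) = (24 * b * z - 1) / l := by
      push_cast
      field_simp
      linear_combination he'
    rw [h5, h6] at h
    have h7 : (-1 / z + 24 * (b : ℂ)) / l = (24 * b * z - 1) / l / z := by
      field_simp
      ring
    rw [h7, h, ← mul_pow]
    congr 1
    have h2 := HS_ne (HS_im_div hl1 hz b')
    generalize ModularForm.eta ((z + 24 * (b' : ℂ)) / l) ^ 8 = E at h2 ⊢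
    field_simp
  rw [mul_add, e1, e2, e3]
  ring

end Pool.Agent.EP
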