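import Pool.Agent.helper7.EP.SpecL

/-!
# Project ep (MP_ebc808_nt), module SQ: odd squares modulo powers of two
-/

set_option autoImplicit false

open Finset
open scoped Real

noncomputable section

namespace Pool.Agent.EP

theorem SQ_exists (a : ℕ) (N : ℤ) (hN : N % 8 = 1) :
    ∃ v : ℤ, v % 2 = 1 ∧ (2 : ℤ) ^ (a + 3) ∣ v ^ 2 - N := by
  induction a with
  | zero =>
    refine ⟨1, rfl, ?_⟩
    norm_num
    omega
  | succ a ih =>
    obtain ⟨v, hv, c, hc⟩ := ih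
    rcases Int.even_or_odd' c with ⟨d, rfl | rfl⟩
    · refine ⟨v, hv, d, ?_⟩
      rw [hc]
      ring
    · obtain ⟨w, rfl⟩ : ∃ w, v = 2 * w + 1 := ⟨v / 2, by omega⟩
      refine ⟨2 * w + 1 + 2 ^ (a + 2), ?_, d + w + 1 + 2 ^ a, ?_⟩
      · have : (2 : ℤ) ^ (a + 2) = 2 * 2 ^ (a + 1) := by ring
        omega
      · have h1 : (2 * w + 1 + 2 ^ (a + 2)) ^ 2 - N =
            ((2 * w + 1) ^ 2 - N) + 2 * (2 * w + 1) * 2 ^ (a + 2) + (2 ^ (a + 2)) ^ 2 := by ring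
        rw [h1, hc]
        ring

theorem SQ_half (a : ℕ) (s t : ℤ) (hs : s % 2 = 1) (h : (2 : ℤ) ^ (a + 3) ∣ (2 * s) * (2 * t)) :
    (2 : ℤ) ^ (a + 2) ∣ 2 * t := by
  have h1 : (2 : ℤ) ^ (a + 1) ∣ s * t := by
    have e1 : (2 : ℤ) ^ (a + 3) = 4 * 2 ^ (a + 1) := by ring
    have e2 : (2 * s) * (2 * t) = 4 * (s * t) := by ring
    rw [e1, e2] at h
    exact (mul_dvd_mul_iff_left (by norm_num)).1 h
  have h2 : IsCoprime ((2 : ℤ) ^ (a + 1)) s := by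
    apply IsCoprime.pow_left
    obtain ⟨w, rfl⟩ : ∃ w, s = 2 * w + 1 := ⟨s / 2, by omega⟩
    exact ⟨-w, 1, by ring⟩
  have h3 := h2.dvd_of_dvd_mul_left h1
  have e1 : (2 : ℤ) ^ (a + 2) = 2 * 2 ^ (a + 1) := by ring
  rw [e1]
  exact mul_dvd_mul_left 2 h3

theorem SQ : SQ_stmt := by
  refine ⟨SQ_exists, ?_⟩
  intro a u v hu hv
  obtain ⟨s, hs⟩ : ∃ s, u - v = 2 * s := ⟨(u - v) / 2, by omega⟩
  obtain ⟨t, ht⟩ : ∃ t, u + v = 2 * t := ⟨(u + v) / 2, by omega⟩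
  have e : u ^ 2 - v ^ 2 = (2 * s) * (2 * t) := by
    rw [← hs, ← ht]; ring
  have e' : (2 * s) * (2 * t) = (2 * t) * (2 * s) := by ring
  rw [e, hs, ht]
  constructor
  · intro h
    rcases Int.emod_two_eq_zero_or_one s with h0 | h1
    · have ht1 : t % 2 = 1 := by omega
      rw [e'] at h
      exact Or.inl (SQ_half a t s ht1 h)
    · exact Or.inr (SQ_half a s t h1 h)
  · have e1 : (2 : ℤ) ^ (a + 3) = 2 ^ (a + 2) * 2 := by ring
    rintro (h | h)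
    · rw [e1]
      exact mul_dvd_mul h (dvd_mul_right 2 t)
    · rw [e1, e']
      exact mul_dvd_mul h (dvd_mul_right 2 s)

end Pool.Agent.EP
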