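import Pool.Agent.helper7.EP.SpecB

/-!
# Project ep (MP_ebc808_nt), part B2: module LHK
-/

set_option autoImplicit false

open Finset

noncomputable section

namespace Pool.Agent.EP

theorem LHK_mod (k : ℕ) (h24 : k % 24 = 1) (N : ℤ) : ((k : ℤ) * N) % 24 = N % 24 := by
  have h1 : (k : ℤ) % 24 = 1 := by omega
  rw [Int.mul_emod, h1, one_mul, Int.emod_emod_of_dvd N (dvd_refl 24)]

theorem LHK_ac0 (N : ℤ) (hN : N % 24 ≠ 23) : ac N = 0 := by
  unfold ac
  rw [if_neg]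
  rintro ⟨h, _⟩
  exact hN h

theorem LHK_zero (k : ℕ) (hk : k.Prime) (h24 : k % 24 = 1) (N : ℤ) (hN : N % 24 ≠ 23) :
    JG ac k N = 0 := by
  unfold JG
  refine Finset.sum_eq_zero fun d hd => ?_
  rw [Finset.mem_filter, Nat.mem_divisors] at hd
  obtain ⟨⟨hdk, _⟩, hdN⟩ := hd
  rcases (Nat.dvd_prime hk).1 hdk with h1 | h1
  · subst h1
    apply LHK_ac0
    rw [Nat.cast_one, one_pow, Int.ediv_one, LHK_mod k h24]
    exact hN
  · subst h1
    obtain ⟨c, hc⟩ := hdN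
    apply LHK_ac0
    have hd0 : (d : ℤ) ^ 2 ≠ 0 := pow_ne_zero 2 (by exact_mod_cast hk.ne_zero)
    have h2 : (d : ℤ) * N / (d : ℤ) ^ 2 = c := by
      rw [hc]
      have h3 : (d : ℤ) * (d * c) = (d : ℤ) ^ 2 * c := by ring
      rw [h3, Int.mul_ediv_cancel_left _ hd0]
    rw [h2]
    rw [hc, LHK_mod d h24] at hN
    exact hN

theorem LHK_val (k : ℕ) (hk : k.Prime) (h24 : k % 24 = 1) (m : ℕ) (hm : 1 ≤ m)
    (hd : ¬ k ∣ 24 * m - 1) :
    JG ac k (24 * (m : ℤ) - 1) = pp ((k * (24 * m - 1) + 1) / 24) := by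
  have hcast : ((24 * m - 1 : ℕ) : ℤ) = 24 * (m : ℤ) - 1 := by omega
  unfold JG
  rw [Finset.sum_eq_single 1]
  · rw [Nat.cast_one, one_pow, Int.ediv_one]
    unfold ac
    have h1 : ((k : ℤ) * (24 * (m : ℤ) - 1)) % 24 = 23 := by
      rw [LHK_mod k h24]
      omega
    have h2 : (0 : ℤ) ≤ (k : ℤ) * (24 * (m : ℤ) - 1) := by
      apply mul_nonneg (by exact_mod_cast Nat.zero_le k)
      omega
    rw [if_pos ⟨h1, by linarith⟩]
    congr 1
    rw [← hcast]
    have h3 : ((k : ℤ) * ((24 * m - 1 : ℕ) : ℤ) + 1) / 24 =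
        (((k * (24 * m - 1) + 1) / 24 : ℕ) : ℤ) := by
      push_cast
      rfl
    rw [h3, Int.toNat_natCast]
  · intro d hd' hd1
    rw [Finset.mem_filter, Nat.mem_divisors] at hd'
    obtain ⟨⟨hdk, _⟩, hdN⟩ := hd'
    rcases (Nat.dvd_prime hk).1 hdk with h1 | h1
    · exact absurd h1 hd1
    · subst h1
      exfalso
      apply hd
      rw [← hcast] at hdN
      exact_mod_cast hdN
  · intro h
    exfalso
    apply h
    rw [Finset.mem_filter, Nat.mem_divisors]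
    exact ⟨⟨one_dvd _, hk.ne_zero⟩, by simp⟩

theorem LHK_tri (r : ℕ) : 3 * (2 * r + 1) ^ 2 = 24 * tri r + 3 := by
  have h1 : 2 * tri r = r * (r + 1) := by
    unfold tri
    exact Nat.mul_div_cancel' (Nat.even_mul_succ_self r).two_dvd
  nlinarith [h1]

theorem LHK_le (r : ℕ) : r ≤ tri r := by
  have h1 : 2 * tri r = r * (r + 1) := by
    unfold tri
    exact Nat.mul_div_cancel' (Nat.even_mul_succ_self r).two_dvd
  rcases Nat.eq_zero_or_pos r with h | h
  · omega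
  · nlinarith [h1]

/-- LHK -/
theorem LHK (hJN : JN_stmt) : LHK_stmt := by
  intro a k n ha hk hlt hXA hXC
  unfold PK at hk
  rw [Finset.mem_filter, Finset.mem_Ioc] at hk
  obtain ⟨⟨hk1, hk2⟩, hkp, hk24'⟩ := hk
  have hk24 : k % 24 = 1 := hk24'
  have hM : ((24 * n + 3 - 2 ^ a : ℕ) : ℤ) = 24 * (n : ℤ) + 3 - 2 ^ a := by
    rw [Nat.cast_sub hlt.le]
    push_cast
    rfl
  have hA0 : (2 ^ a : ℤ) ≠ 0 := by positivity
  have hApos : (0 : ℤ) < 2 ^ a := by positivity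
  -- the values for `r ∈ rs`
  have hrs : ∀ r ∈ rs (2 ^ a) n, 1 ≤ (n - tri r) / 2 ^ a ∧
      ((24 * n + 3 - 2 ^ a : ℕ) : ℤ) - 3 * ((2 * r + 1 : ℕ) : ℤ) ^ 2 =
        2 ^ a * (24 * (((n - tri r) / 2 ^ a : ℕ) : ℤ) - 1) := by
    intro r hr
    unfold rs at hr
    rw [Finset.mem_filter] at hr
    obtain ⟨_, hr1, hr2⟩ := hr
    have hm := Nat.mul_div_cancel' hr2
    obtain ⟨m, hmdef⟩ : ∃ m, m = (n - tri r) / 2 ^ a := ⟨_, rfl⟩
    rw [← hmdef] at hm ⊢
    have hn : (n : ℤ) = tri r + 2 ^ a * m := by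
      have : n = tri r + 2 ^ a * m := by omega
      exact_mod_cast this
    have ht : (3 : ℤ) * ((2 * r + 1 : ℕ) : ℤ) ^ 2 = 24 * (tri r : ℤ) + 3 := by
      exact_mod_cast LHK_tri r
    refine ⟨?_, ?_⟩
    · by_contra h0
      have h0' : m = 0 := by omega
      rw [h0', mul_zero] at hm
      have hnt : n = tri r := by omega
      apply hXA
      left
      refine ⟨2 * r + 1, ?_⟩
      rw [LHK_tri r, hnt]
    · rw [hM, ht, hn]
      ring
  symm
  refine Finset.sum_of_injOn (fun r => 2 * r + 1) ?_ ?_ ?_ ?_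
  · intro r _ r' _ h
    have : 2 * r + 1 = 2 * r' + 1 := h
    omega
  · intro r hr
    obtain ⟨hm1, he⟩ := hrs r hr
    have hmem : 2 * r + 1 ∈ us a k ((24 * n + 3 - 2 ^ a : ℕ) : ℤ) := by
      unfold us
      rw [Finset.mem_filter, Finset.mem_range]
      refine ⟨?_, by omega, ?_⟩
      · have h1 : (0 : ℤ) ≤ 2 ^ a * (24 * (((n - tri r) / 2 ^ a : ℕ) : ℤ) - 1) := by
          apply mul_nonneg hApos.le
          omega
        have h2 : (0 : ℤ) ≤ (k : ℤ) * 2 ^ a := by positivity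
        have h3 : ((2 * r + 1 : ℕ) : ℤ) ≤ 3 * ((2 * r + 1 : ℕ) : ℤ) ^ 2 := by
          have : (2 * r + 1 : ℕ) ≤ 3 * (2 * r + 1 : ℕ) ^ 2 := by nlinarith
          exact_mod_cast this
        have h4 : ((2 * r + 1 : ℕ) : ℤ) ≤ ((24 * n + 3 - 2 ^ a : ℕ) : ℤ) + k * 2 ^ a := by
          linarith
        omega
      · exact ⟨_, he⟩
    exact hmem
  · intro u hu hnot
    unfold us at hu
    rw [Finset.mem_filter, Finset.mem_range] at hu
    obtain ⟨_, hodd, c, hc⟩ := hu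
    have hdiv : (((24 * n + 3 - 2 ^ a : ℕ) : ℤ) - 3 * (u : ℤ) ^ 2) / 2 ^ a = c := by
      rw [hc, Int.mul_ediv_cancel_left _ hA0]
    rw [hdiv]
    by_cases h23 : c % 24 = 23
    · by_cases hneg : c < 0
      · rw [hJN k c hkp.pos hneg, if_neg]
        intro hck
        apply hXA
        right
        refine ⟨u, ?_⟩
        rw [hM, hck] at hc
        have : (3 : ℤ) * (u : ℤ) ^ 2 + 2 ^ a = 24 * n + 3 + k * 2 ^ a := by linarith
        exact_mod_cast this
      · exfalso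
        apply hnot
        obtain ⟨r, hr⟩ : ∃ r, u = 2 * r + 1 := ⟨u / 2, by omega⟩
        obtain ⟨m, hm⟩ : ∃ m : ℤ, c = 24 * m - 1 := ⟨(c + 1) / 24, by omega⟩
        have hm1 : 1 ≤ m := by omega
        obtain ⟨m', rfl⟩ : ∃ m' : ℕ, m = m' := ⟨m.toNat, by omega⟩
        have ht : (3 : ℤ) * (u : ℤ) ^ 2 = 24 * (tri r : ℤ) + 3 := by
          rw [hr]
          exact_mod_cast LHK_tri r
        rw [hM, ht, hm] at hc
        have hn : (n : ℤ) = tri r + 2 ^ a * m' := by linarith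
        have hn' : n = tri r + 2 ^ a * m' := by exact_mod_cast hn
        refine ⟨r, ?_, hr.symm⟩
        have hmem : r ∈ rs (2 ^ a) n := by
          unfold rs
          rw [Finset.mem_filter, Finset.mem_range]
          have := LHK_le r
          refine ⟨by omega, by omega, ?_⟩
          rw [hn', Nat.add_sub_cancel_left]
          exact dvd_mul_right _ _
        exact hmem
    · exact LHK_zero k hkp hk24 c h23
  · intro r hr
    obtain ⟨hm1, he⟩ := hrs r hr
    rw [he, Int.mul_ediv_cancel_left _ hA0]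
    symm
    apply LHK_val k hkp hk24 _ hm1
    intro hd
    exact hXC ⟨r, hr, hm1, hd⟩

end Pool.Agent.EP
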