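import Pool.Agent.helper7.EP.SpecA

/-! # Project ep: (MP_ebc808_nt), module KCX (statement KC of SpecA) -/

set_option autoImplicit false

open Finset

namespace Pool.Agent.EP

/-- the multiplier of `v` -/
def KCX_k (A v : ℕ) : ℕ := 6 * ((3 * v ^ 2 - A) / (6 * A) + 1) + 1

theorem KCX_lt (A v : ℕ) (hA : 0 < A) : 3 * v ^ 2 < KCX_k A v * A := by
  unfold KCX_k
  have h1 : 3 * v ^ 2 - A < 6 * A * ((3 * v ^ 2 - A) / (6 * A) + 1) :=
    Nat.lt_mul_div_succ _ (by omega)
  have h2 : (6 * ((3 * v ^ 2 - A) / (6 * A) + 1) + 1) * A =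
      6 * A * ((3 * v ^ 2 - A) / (6 * A) + 1) + A := by ring
  rw [h2]
  omega

theorem KCX_le (A v : ℕ) (hA : 0 < A) (hv : A ≤ v) : KCX_k A v * A ≤ 3 * (v + 1) ^ 2 := by
  unfold KCX_k
  have h0 : A ≤ 3 * v ^ 2 := by nlinarith
  have h1 : 6 * A * ((3 * v ^ 2 - A) / (6 * A)) ≤ 3 * v ^ 2 - A := Nat.mul_div_le _ _
  have h2 : (6 * ((3 * v ^ 2 - A) / (6 * A) + 1) + 1) * A =
      6 * A * ((3 * v ^ 2 - A) / (6 * A)) + 7 * A := by ring
  have h3 : 3 * (v + 1) ^ 2 = 3 * v ^ 2 + 6 * v + 3 := by ring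
  rw [h2, h3]
  omega

theorem KCX_ws (A v : ℕ) (hA : 0 < A) (hv : A ≤ v) :
    ws (KCX_k A v * A) = (range (v + 1)).filter (fun w => w % 2 = 1) := by
  have h1 := KCX_lt A v hA
  have h2 := KCX_le A v hA hv
  ext w
  simp only [ws, mem_filter, mem_range]
  constructor
  · rintro ⟨-, hw, hw2⟩
    refine ⟨?_, hw⟩
    by_contra h
    push Not at h
    have : (v + 1) ^ 2 ≤ w ^ 2 := Nat.pow_le_pow_left h 2
    omega
  · rintro ⟨hw, hw2⟩
    have h3 : w ^ 2 ≤ v ^ 2 := Nat.pow_le_pow_left (by omega) 2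
    have h4 : w ≤ w ^ 2 := Nat.le_self_pow (by norm_num) w
    exact ⟨by omega, hw2, by omega⟩

theorem KCX_odd (c : ℕ) : #((range (4 * c + 1 + 1)).filter (fun w => w % 2 = 1)) = 2 * c + 1 := by
  have h : (range (4 * c + 1 + 1)).filter (fun w => w % 2 = 1) =
      (range (2 * c + 1)).image (fun t => 2 * t + 1) := by
    ext w
    simp only [mem_filter, mem_range, mem_image]
    constructor
    · rintro ⟨h1, h2⟩
      exact ⟨w / 2, by omega, by omega⟩
    · rintro ⟨t, ht, rfl⟩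
      exact ⟨by omega, by omega⟩
  have hinj : Function.Injective (fun t : ℕ => 2 * t + 1) := by
    intro x y hxy
    have h2 : 2 * x + 1 = 2 * y + 1 := hxy
    omega
  rw [h, card_image_of_injective _ hinj, card_range]

theorem KCX : KC_stmt := by
  intro a ha
  obtain ⟨b, rfl⟩ : ∃ b, a = b + 2 := ⟨a - 2, by omega⟩
  have hA : 2 ^ (b + 2) = 4 * 2 ^ b := by ring
  have hB : 0 < 2 ^ b := by positivity
  set A := 2 ^ (b + 2) with hAdef
  set B := 2 ^ b with hBdef
  have hApos : 0 < A := by omega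
  have hsub : (range B).image (fun i => KCX_k A (A + 4 * i + 1)) ⊆ Ks (b + 2) := by
    intro k hk
    obtain ⟨i, hi, rfl⟩ := mem_image.1 hk
    rw [mem_range] at hi
    have hv : A ≤ A + 4 * i + 1 := by omega
    have h2 := KCX_le A _ hApos hv
    simp only [Ks, mem_filter, mem_range]
    rw [← hAdef]
    refine ⟨?_, ?_, ?_⟩
    · have h3 : (A + 4 * i + 1 + 1) ^ 2 ≤ (2 * A) ^ 2 := Nat.pow_le_pow_left (by omega) 2
      have h4 : KCX_k A (A + 4 * i + 1) * A ≤ 12 * A * A := by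
        calc KCX_k A (A + 4 * i + 1) * A ≤ 3 * (A + 4 * i + 1 + 1) ^ 2 := h2
          _ ≤ 3 * (2 * A) ^ 2 := Nat.mul_le_mul_left _ h3
          _ = 12 * A * A := by ring
      have h5 := Nat.le_of_mul_le_mul_right h4 hApos
      omega
    · unfold KCX_k
      omega
    · rw [KCX_ws A _ hApos hv]
      have h5 : A + 4 * i + 1 + 1 = 4 * (B + i) + 1 + 1 := by omega
      rw [h5, KCX_odd]
      omega
  have hinj : Set.InjOn (fun i => KCX_k A (A + 4 * i + 1)) (range B : Finset ℕ) := by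
    have key : ∀ v v' : ℕ, A ≤ v → A ≤ v' → KCX_k A v = KCX_k A v' → v' ≤ v := by
      intro v v' hv hv' h
      have h1 := KCX_le A v hApos hv
      have h2 := KCX_lt A v' hApos
      rw [← h] at h2
      have h3 : v' ^ 2 < (v + 1) ^ 2 := by omega
      have h4 : v' < v + 1 := lt_of_pow_lt_pow_left₀ 2 (by omega) h3
      omega
    intro i _ j _ hij
    have hij' : KCX_k A (A + 4 * i + 1) = KCX_k A (A + 4 * j + 1) := hij
    have h1 := key _ _ (by omega) (by omega) hij'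
    have h2 := key _ _ (by omega) (by omega) hij'.symm
    omega
  have hcard := card_le_card hsub
  rw [card_image_of_injOn hinj, card_range] at hcard
  omega

end Pool.Agent.EP
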