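import Pool.Agent.helper7.EP.SpecL

/-!
# Project ep (MP_ebc808_nt), module GEO2: the values of `Rb` at two windows
-/

set_option autoImplicit false

open Finset
open scoped Real

noncomputable section

namespace Pool.Agent.EP

theorem GEO2_r (a : ℕ) : r0 a = 11 ∨ r0 a = 19 := by
  unfold r0
  split_ifs
  · exact Or.inr rfl
  · exact Or.inl rfl

/-- the lower bound -/
theorem GEO2_low (r y₁ y₂ i ell A R : ℕ) (hr : r = 11 ∨ r = 19) (h1 : y₁ ≤ 2 * y₂) (hA : A ≤ y₂)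
    (hl : 8 * ell ≤ A) (hi : 30 ≤ i) (hR : 3 * R ^ 2 ≤ r * y₁ * y₂ + A) :
    3 * (R + 12 * ell) ^ 2 ≤ r * (y₁ + i * ell) * y₂ + A := by
  have h2 : 3 * R ^ 2 ≤ (2 * r + 1) * y₂ ^ 2 := by
    have e1 : r * y₁ * y₂ ≤ r * (2 * y₂) * y₂ :=
      Nat.mul_le_mul_right _ (Nat.mul_le_mul_left _ h1)
    have e2 : A ≤ y₂ ^ 2 := hA.trans (Nat.le_self_pow (by norm_num) _)
    calc 3 * R ^ 2 ≤ r * y₁ * y₂ + A := hR
      _ ≤ r * (2 * y₂) * y₂ + y₂ ^ 2 := Nat.add_le_add e1 e2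
      _ = (2 * r + 1) * y₂ ^ 2 := by ring
  have h3 : 72 * R + 432 * ell ≤ 30 * r * y₂ := by
    have h4 : 432 * ell ≤ 54 * y₂ := by omega
    rcases hr with rfl | rfl
    · have h5 : 72 * R ≤ 276 * y₂ := by
        by_contra hc
        push Not at hc
        nlinarith
      omega
    · have h5 : 72 * R ≤ 516 * y₂ := by
        by_contra hc
        push Not at hc
        nlinarith
      omega
  have h6 : ell * (72 * R + 432 * ell) ≤ ell * (i * r * y₂) := by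
    refine Nat.mul_le_mul_left _ (h3.trans ?_)
    exact Nat.mul_le_mul_right _ (Nat.mul_le_mul_right _ hi)
  calc 3 * (R + 12 * ell) ^ 2 = 3 * R ^ 2 + ell * (72 * R + 432 * ell) := by ring
    _ ≤ (r * y₁ * y₂ + A) + ell * (i * r * y₂) := Nat.add_le_add hR h6
    _ = r * (y₁ + i * ell) * y₂ + A := by ring

/-- the upper bound -/
theorem GEO2_upp (r y₁ y₂ i ell A R D : ℕ) (hr : r = 11 ∨ r = 19) (h1 : y₂ ≤ 2 * y₁)
    (hi : i * ell ≤ A) (hD : 5 * A ≤ 2 * D) (hR : r * y₁ * y₂ + A + 1 ≤ 3 * (R + 1) ^ 2) :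
    r * (y₁ + i * ell) * y₂ + A < 3 * (R + 1 + D) ^ 2 := by
  have h2 : r * y₂ ≤ 15 * (R + 1) := by
    by_contra hc
    push Not at hc
    have e1 : r * y₂ ^ 2 ≤ 6 * (R + 1) ^ 2 := by
      have : r * y₂ ^ 2 ≤ 2 * (r * y₁ * y₂) := by
        calc r * y₂ ^ 2 = r * y₂ * y₂ := by ring
          _ ≤ r * (2 * y₁) * y₂ := Nat.mul_le_mul_right _ (Nat.mul_le_mul_left _ h1)
          _ = 2 * (r * y₁ * y₂) := by ring
      omega
    have e2 : (15 * (R + 1)) ^ 2 < (r * y₂) ^ 2 := Nat.pow_lt_pow_left hc (by norm_num)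
    rcases hr with rfl | rfl <;> nlinarith
  have h3 : r * (i * ell) * y₂ ≤ 6 * (R + 1) * D := by
    calc r * (i * ell) * y₂ ≤ r * A * y₂ :=
          Nat.mul_le_mul_right _ (Nat.mul_le_mul_left _ hi)
      _ = A * (r * y₂) := by ring
      _ ≤ A * (15 * (R + 1)) := Nat.mul_le_mul_left _ h2
      _ = 3 * (R + 1) * (5 * A) := by ring
      _ ≤ 3 * (R + 1) * (2 * D) := Nat.mul_le_mul_left _ hD
      _ = 6 * (R + 1) * D := by ring
  calc r * (y₁ + i * ell) * y₂ + A = (r * y₁ * y₂ + A) + r * (i * ell) * y₂ := by ring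
    _ < (r * y₁ * y₂ + A + 1) + r * (i * ell) * y₂ := by omega
    _ ≤ 3 * (R + 1) ^ 2 + 6 * (R + 1) * D := Nat.add_le_add hR h3
    _ ≤ 3 * (R + 1) ^ 2 + 6 * (R + 1) * D + 3 * D ^ 2 := Nat.le_add_right _ _
    _ = 3 * (R + 1 + D) ^ 2 := by ring

theorem GEO2 : GEO2_stmt := by
  intro a j y y₁ y₂ i hj hja hy h1 h2 h3 h4 hi hi'
  have hr := GEO2_r a
  have e1 : 2 ^ (a + 2 - j) = 4 * 2 ^ (a - j) := by
    rw [show a + 2 - j = (a - j) + 2 by omega, pow_add]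
    ring
  have e2 : 2 ^ a = 2 ^ j * 2 ^ (a - j) := by
    rw [← pow_add]
    congr 1
    omega
  have e3 : 2 ^ (a + 2) = 4 * 2 ^ a := by rw [pow_add]; ring
  have e4 : 8 ≤ 2 ^ j := by
    calc 8 = 2 ^ 3 := by norm_num
      _ ≤ 2 ^ j := Nat.pow_le_pow_right (by norm_num) hj
  rw [e1, e3]
  unfold Rb
  generalize hell : 2 ^ (a - j) = ell at *
  generalize hA : 2 ^ a = A at *
  generalize hJ : 2 ^ j = J at *
  generalize hrr : r0 a = r at *
  have h8 : 8 * ell ≤ A := by rw [e2]; exact Nat.mul_le_mul_right _ e4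
  have hiA : i * ell ≤ A := by rw [e2]; exact Nat.mul_le_mul_right _ hi'
  set R := Nat.sqrt ((r * y₁ * y₂ + A) / 3) with hR
  have hR1 : 3 * R ^ 2 ≤ r * y₁ * y₂ + A := by
    have := Nat.sqrt_le' ((r * y₁ * y₂ + A) / 3)
    rw [← hR] at this
    omega
  have hR2 : r * y₁ * y₂ + A + 1 ≤ 3 * (R + 1) ^ 2 := by
    have := Nat.lt_succ_sqrt' ((r * y₁ * y₂ + A) / 3)
    rw [← hR] at this
    simp only [Nat.succ_eq_add_one] at this
    omega
  refine ⟨?_, ?_⟩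
  · have h5 := GEO2_low r y₁ y₂ i ell A R hr (by omega) (by omega) h8 hi hR1
    rw [show R + 3 * (4 * ell) = R + 12 * ell by ring, Nat.le_sqrt', Nat.le_div_iff_mul_le
      (by norm_num)]
    omega
  · have h6 : 12 * ell ≤ 4 * A := by omega
    obtain ⟨D, hD⟩ := Nat.exists_eq_add_of_le h6
    have h5 := GEO2_upp r y₁ y₂ i ell A R D hr (by omega) hiA (by omega) hR2
    have h7 : Nat.sqrt ((r * (y₁ + i * ell) * y₂ + A) / 3) < R + 1 + D := by
      rw [Nat.sqrt_lt']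
      exact Nat.div_lt_of_lt_mul h5
    omega

end Pool.Agent.EP
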