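import Pool.Agent.helper71.EP.SpecE

/-!
# Project ep (MP_ebc808_nt), part E: module EBN
-/

set_option autoImplicit false

open Finset
open scoped Real
open Pool.Agent.helper74.TG

noncomputable section

namespace Pool.Agent.EP

theorem EBN_aux (u q p : ℕ) (h : 4 * q + p = 3 * u ^ 2) : 16 * (q * p) ≤ 9 * u ^ 4 := by
  have h1 : 9 * u ^ 4 = (4 * q + p) ^ 2 := by
    rw [h]
    ring
  rw [h1]
  zify
  nlinarith [sq_nonneg ((4 : ℤ) * q - p)]

/-- EBN -/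
theorem EBN : EBN_stmt := by
  intro U u q n hz hF
  unfold Pq at hz
  rw [Finset.mem_filter, Finset.mem_product, Finset.mem_Ioc] at hz
  obtain ⟨⟨⟨hu0, huU⟩, _⟩, _, _, _, _, h4, _⟩ := hz
  simp only at hu0 huU h4
  have hlt : 4 * q < 3 * u ^ 2 := by omega
  obtain ⟨p, hp⟩ : ∃ p, p = 3 * u ^ 2 - 4 * q := ⟨_, rfl⟩
  have hsum : 4 * q + p = 3 * u ^ 2 := by omega
  have haux := EBN_aux u q p hsum
  have hu4 : 1 ≤ u ^ 4 := Nat.one_le_pow _ _ hu0
  have hUU : u ^ 4 ≤ U ^ 4 := Nat.pow_le_pow_left huU 4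
  obtain ⟨_, hF⟩ := hF
  rcases hF with ⟨w, hw, hn⟩ | ⟨w, hw, hn⟩
  · rw [← hp] at hn
    have h1 : (4 * q - 3 * w ^ 2) * p ≤ 4 * (q * p) := by
      calc (4 * q - 3 * w ^ 2) * p ≤ (4 * q) * p := Nat.mul_le_mul_right p (Nat.sub_le _ _)
        _ = 4 * (q * p) := by ring
    omega
  · rw [← hp] at hn
    have h1 : q * (p - 3 * w ^ 2) ≤ q * p := Nat.mul_le_mul_left q (Nat.sub_le _ _)
    omega

end Pool.Agent.EP
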